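import Pool.Agent.Y298.LC.Stm
import Pool.Agent.Helper114.MontelSol

/-!
# Rational parameter rays do not accumulate at `c₀` (job LC-ACC of helper298)

If the ray with angle `t` accumulates at `c₀`, a limit (Montel) of the maps
`ζ ↦ Ψ c (exp (σ ζ + 2 π i d ^ k t))` on a disc of the half plane `Re ζ > 1 / d` takes the values
`P d (k + 1) c₀` and `P d (k + q + 1) c₀` and its image is contained in the filled Julia set.
-/

set_option autoImplicit false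

open Set Filter Metric Topology Complex Bornology

namespace Pool.Agent.Y812.LC

open Pool.Agent.Y298.LC
open Pool.Agent.H712R2 (P fc P_succ P_zero P_one)
open Pool.Agent.H713R2 (IsExteriorMap)
open Pool.Agent.H713R2.AR (green norm_iter_le)
open N62a1eb23 (multibrotSet)

theorem norm_ex (σ t : ℝ) : ‖ex σ t‖ = Real.exp σ := by
  unfold ex
  rw [Complex.norm_exp]
  congr 1
  simp

theorem log_ex (σ t : ℝ) : Real.log ‖ex σ t‖ = σ := by
  rw [norm_ex, Real.log_exp]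

theorem ex_pow (d : ℕ) (σ t : ℝ) : ex σ t ^ d = ex (d * σ) (d * t) := by
  unfold ex
  rw [← Complex.exp_nat_mul]
  congr 1
  push_cast
  ring

theorem ex_int (σ t : ℝ) (n : ℤ) : ex σ (t + n) = ex σ t := by
  unfold ex
  rw [Complex.exp_eq_exp_iff_exists_int]
  refine ⟨n, ?_⟩
  push_cast
  ring

/-- the critical orbit of a parameter outside of the Multibrot set -/
theorem crit_orbit {d : ℕ} {Ψ : ℂ → ℂ → ℂ} {ψ : ℂ → ℂ} (h2 : S_BOT2) (hd : 2 ≤ d)
    (hΨ : Bott d Ψ) (hψ : IsExteriorMap (multibrotSet d) ψ) {σ : ℝ} (hσ : 0 < σ) (t : ℝ) (j : ℕ) :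
    P d (j + 1) (ψ (ex σ t)) = Ψ (ψ (ex σ t)) (ex ((d : ℝ) ^ j * σ) ((d : ℝ) ^ j * t)) := by
  have hw : 1 < ‖ex σ t‖ := by
    rw [norm_ex]
    exact Real.one_lt_exp_iff.2 hσ
  obtain ⟨h3, h4⟩ := h2 d Ψ ψ hd hΨ hψ (ex σ t) hw
  rw [log_ex] at h3
  have hd1 : (1 : ℝ) < d := by exact_mod_cast (by omega : 1 < d)
  induction j with
  | zero =>
    rw [pow_zero, one_mul, one_mul, h4, P_one hd]
  | succ j ih =>
    rw [P_succ, ih]
    have h5 : ex ((d : ℝ) ^ j * σ) ((d : ℝ) ^ j * t) ∈ Dom (green d (ψ (ex σ t)) 0) := by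
      change green d (ψ (ex σ t)) 0 < Real.log _
      rw [h3, log_ex, div_lt_iff₀ (by linarith)]
      have h6 : 1 ≤ (d : ℝ) ^ j := one_le_pow₀ hd1.le
      have h7 : σ ≤ (d : ℝ) ^ j * σ := by nlinarith
      nlinarith
    have h6 := hΨ.conj _ _ h5
    rw [ex_pow] at h6
    have e1 : (d : ℝ) * ((d : ℝ) ^ j * σ) = (d : ℝ) ^ (j + 1) * σ := by ring
    have e2 : (d : ℝ) * ((d : ℝ) ^ j * t) = (d : ℝ) ^ (j + 1) * t := by ring
    rw [e1, e2] at h6
    rw [h6]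
    rfl

theorem continuous_P (d j : ℕ) : Continuous (P d j) := by
  induction j with
  | zero =>
    have : P d 0 = fun _ => 0 := funext fun c => P_zero d c
    rw [this]
    exact continuous_const
  | succ j ih =>
    have : P d (j + 1) = fun c => (P d j c) ^ d + c := funext fun c => P_succ d j c
    rw [this]
    exact (ih.pow d).add continuous_id

theorem lim_two {G : ℂ → ℂ → ℝ} (h : Continuous fun p : ℂ × ℂ => G p.1 p.2) {ι : Type}
    {l : Filter ι} {a b : ι → ℂ} {x y : ℂ} (ha : Tendsto a l (𝓝 x)) (hb : Tendsto b l (𝓝 y)) :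
    Tendsto (fun i => G (a i) (b i)) l (𝓝 (G x y)) :=
  (h.tendsto (x, y)).comp (ha.prodMk_nhds hb)

/-- **ACC**: a rational parameter ray does not accumulate at `c₀` -/
theorem acc : S_CG → S_BOT2 → S_ACC := by
  intro hCG h2 d Ψ ψ c₀ t k q hd hΨ hψ hc₀ hq hper hint hne
  obtain ⟨hcont, -, hM, -⟩ := hCG d hd
  have hd1 : (1 : ℝ) < d := by exact_mod_cast (by omega : 1 < d)
  have hd0 : (0 : ℝ) < d := by linarith
  by_contra hcon
  push Not at hcon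
  have hch : ∀ n : ℕ, ∃ σ : ℝ, 0 < σ ∧ ψ (ex σ t) ∈ ball c₀ (1 / ((n : ℝ) + 1)) := fun n =>
    hcon _ Nat.one_div_pos_of_nat
  choose σ hσ hb using hch
  -- the parameters
  obtain ⟨c, hcdef⟩ : ∃ c : ℕ → ℂ, ∀ n, c n = ψ (ex (σ n) t) := ⟨_, fun _ => rfl⟩
  have hcb : ∀ n, dist (c n) c₀ < 1 / ((n : ℝ) + 1) := fun n => by
    rw [hcdef]; exact hb n
  have hclim : Tendsto c atTop (𝓝 c₀) := by
    rw [tendsto_iff_dist_tendsto_zero]
    exact squeeze_zero (fun _ => dist_nonneg) (fun n => (hcb n).le)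
      tendsto_one_div_add_atTop_nhds_zero_nat
  have hgr : ∀ n, green d (c n) 0 = σ n / d := by
    intro n
    have hw : 1 < ‖ex (σ n) t‖ := by
      rw [norm_ex]
      exact Real.one_lt_exp_iff.2 (hσ n)
    have := (h2 d Ψ ψ hd hΨ hψ (ex (σ n) t) hw).1
    rwa [log_ex, ← hcdef] at this
  have hσlim : Tendsto σ atTop (𝓝 0) := by
    have h3 : Tendsto (fun n => green d (c n) 0) atTop (𝓝 (green d c₀ 0)) :=
      lim_two (G := green d) hcont hclim tendsto_const_nhds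
    rw [(hM c₀).1 hc₀] at h3
    have h4 := h3.const_mul (d : ℝ)
    rw [mul_zero] at h4
    refine h4.congr fun n => ?_
    rw [hgr]
    field_simp
  have hcA : ∀ n, ‖c n‖ ≤ ‖c₀‖ + 1 := by
    intro n
    have h3 : ‖c n‖ ≤ ‖c₀‖ + ‖c n - c₀‖ := by
      have := norm_add_le c₀ (c n - c₀)
      rwa [add_sub_cancel] at this
    have h4 := hcb n
    rw [dist_eq_norm] at h4
    have h5 : 1 / ((n : ℝ) + 1) ≤ 1 := by
      rw [div_le_one (by positivity)]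
      have : (0 : ℝ) ≤ n := Nat.cast_nonneg _
      linarith
    linarith
  obtain ⟨S, hS⟩ := hσlim.bddAbove_range
  have hS' : ∀ n, σ n ≤ S := fun n => hS (mem_range_self n)
  have hS0 : 0 ≤ S := (hσ 0).le.trans (hS' 0)
  -- the disc
  obtain ⟨x₁, hx₁⟩ : ∃ x : ℝ, x = (d : ℝ) ^ (k + q) := ⟨_, rfl⟩
  have hx1 : 1 ≤ x₁ := by rw [hx₁]; exact one_le_pow₀ hd1.le
  have hinv : 1 / (d : ℝ) < 1 := by rw [div_lt_one hd0]; exact hd1
  obtain ⟨R, hR⟩ : ∃ R : ℝ, R = x₁ - 1 / d := ⟨_, rfl⟩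
  have hR0 : 0 < R := by rw [hR]; linarith
  have hre : ∀ ζ ∈ ball (x₁ : ℂ) R, 1 / (d : ℝ) < ζ.re ∧ ζ.re < 2 * x₁ := by
    intro ζ hζ
    rw [mem_ball, dist_eq_norm] at hζ
    have h3 := (abs_lt.1 ((Complex.abs_re_le_norm _).trans_lt hζ))
    rw [Complex.sub_re, Complex.ofReal_re] at h3
    have h4 : 0 < 1 / (d : ℝ) := by positivity
    constructor
    · linarith [h3.1]
    · linarith [h3.2]
  obtain ⟨a, ha⟩ : ∃ a : ℂ, a = 2 * Real.pi * ((d : ℝ) ^ k * t : ℝ) * I := ⟨_, rfl⟩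
  have hare : a.re = 0 := by
    have h3 : a = ((2 * Real.pi * ((d : ℝ) ^ k * t) : ℝ) : ℂ) * I := by rw [ha]; push_cast; ring
    rw [h3, Complex.re_ofReal_mul, Complex.I_re, mul_zero]
  obtain ⟨φ, hφ⟩ : ∃ φ : ℕ → ℂ → ℂ, ∀ n ζ, φ n ζ = Ψ (c n) (Complex.exp ((σ n : ℂ) * ζ + a)) :=
    ⟨_, fun _ _ => rfl⟩
  have hlog : ∀ n ζ, Real.log ‖Complex.exp ((σ n : ℂ) * ζ + a)‖ = σ n * ζ.re := by
    intro n ζ
    rw [Complex.norm_exp, Real.log_exp, Complex.add_re, hare, Complex.re_ofReal_mul, add_zero]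
  have hdom : ∀ n, ∀ ζ ∈ ball (x₁ : ℂ) R,
      Complex.exp ((σ n : ℂ) * ζ + a) ∈ Dom (green d (c n) 0) := by
    intro n ζ hζ
    change green d (c n) 0 < Real.log _
    rw [hlog, hgr]
    have h3 := (hre ζ hζ).1
    have h4 := hσ n
    calc σ n / d = σ n * (1 / d) := by ring
      _ < σ n * ζ.re := mul_lt_mul_of_pos_left h3 h4
  have hdiff : ∀ n, DifferentiableOn ℂ (φ n) (ball (x₁ : ℂ) R) := by
    intro n
    have h3 : φ n = (Ψ (c n)) ∘ fun ζ => Complex.exp ((σ n : ℂ) * ζ + a) := funext fun ζ => hφ n ζ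
    rw [h3]
    refine (hΨ.diffw (c n)).comp ?_ (hdom n)
    exact (((differentiable_id.const_mul (σ n : ℂ)).add_const a).cexp).differentiableOn
  have hgφ : ∀ n, ∀ ζ ∈ ball (x₁ : ℂ) R, green d (c n) (φ n ζ) = σ n * ζ.re := by
    intro n ζ hζ
    rw [hφ, hΨ.pot (c n) _ (hdom n ζ hζ), hlog]
  have hA1 : 1 ≤ ‖c₀‖ + 1 := by have := norm_nonneg c₀; linarith
  have hbd : ∀ n, ∀ ζ ∈ ball (x₁ : ℂ) R,
      ‖φ n ζ‖ ≤ 2 * (‖c₀‖ + 1) * Real.exp (S * (2 * x₁)) := by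
    intro n ζ hζ
    have h3 := norm_iter_le hd hA1 (hcA n) (φ n ζ) 0
    simp only [Function.iterate_zero, id_eq, pow_zero, one_mul] at h3
    rw [hgφ n ζ hζ] at h3
    refine h3.trans ?_
    have h4 : 0 < ζ.re := lt_trans (by positivity) (hre ζ hζ).1
    have h5 : σ n * ζ.re ≤ S * (2 * x₁) :=
      mul_le_mul (hS' n) (hre ζ hζ).2.le h4.le hS0
    gcongr
  -- the limit
  obtain ⟨Φ, hΦd, hΦl⟩ := Pool.Agent.Helper114.Montel.montel isOpen_ball φ hdiff _ hbd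
    (Filter.hyperfilter ℕ)
  have hU : ((Filter.hyperfilter ℕ : Ultrafilter ℕ) : Filter ℕ) ≤ atTop :=
    Nat.hyperfilter_le_atTop
  have hpt : ∀ ζ ∈ ball (x₁ : ℂ) R, Tendsto (fun n => φ n ζ) (Filter.hyperfilter ℕ : Ultrafilter ℕ)
      (𝓝 (Φ ζ)) := fun ζ hζ => hΦl.tendsto_at hζ
  have hJ : ∀ ζ ∈ ball (x₁ : ℂ) R, green d c₀ (Φ ζ) = 0 := by
    intro ζ hζ
    have h3 : Tendsto (fun n => green d (c n) (φ n ζ)) (Filter.hyperfilter ℕ : Ultrafilter ℕ)
        (𝓝 (green d c₀ (Φ ζ))) :=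
      lim_two (G := green d) hcont (hclim.mono_left hU) (hpt ζ hζ)
    have h4 : Tendsto (fun n => green d (c n) (φ n ζ)) (Filter.hyperfilter ℕ : Ultrafilter ℕ)
        (𝓝 (0 * ζ.re)) :=
      ((hσlim.mono_left hU).mul_const ζ.re).congr fun n => (hgφ n ζ hζ).symm
    rw [zero_mul] at h4
    exact tendsto_nhds_unique h3 h4
  -- the two points
  have hk1 : 1 ≤ (d : ℝ) ^ k := one_le_pow₀ hd1.le
  have hkq : (d : ℝ) ^ k ≤ x₁ := by
    rw [hx₁]
    exact pow_le_pow_right₀ hd1.le (by omega)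
  have hmem0 : (((d : ℝ) ^ k : ℝ) : ℂ) ∈ ball (x₁ : ℂ) R := by
    rw [mem_ball, dist_eq_norm, ← Complex.ofReal_sub, Complex.norm_real, Real.norm_eq_abs,
      abs_of_nonpos (by linarith), hR]
    linarith
  have hmem1 : (x₁ : ℂ) ∈ ball (x₁ : ℂ) R := mem_ball_self hR0
  have hv0 : Φ (((d : ℝ) ^ k : ℝ) : ℂ) = P d (k + 1) c₀ := by
    have h3 : Tendsto (fun n => P d (k + 1) (c n)) (Filter.hyperfilter ℕ : Ultrafilter ℕ)
        (𝓝 (P d (k + 1) c₀)) := ((continuous_P d (k + 1)).tendsto c₀).comp (hclim.mono_left hU)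
    refine tendsto_nhds_unique (hpt _ hmem0) (h3.congr fun n => ?_)
    rw [hφ, hcdef, crit_orbit h2 hd hΨ hψ (hσ n) t k]
    congr 1
    unfold ex
    rw [ha]
    congr 1
    push_cast
    ring
  have hv1 : Φ (x₁ : ℂ) = P d (k + q + 1) c₀ := by
    have h3 : Tendsto (fun n => P d (k + q + 1) (c n)) (Filter.hyperfilter ℕ : Ultrafilter ℕ)
        (𝓝 (P d (k + q + 1) c₀)) :=
      ((continuous_P d (k + q + 1)).tendsto c₀).comp (hclim.mono_left hU)
    refine tendsto_nhds_unique (hpt _ hmem1) (h3.congr fun n => ?_)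
    rw [hφ, hcdef, crit_orbit h2 hd hΨ hψ (hσ n) t (k + q)]
    obtain ⟨m, hm⟩ := hper
    rw [hm, ex_int]
    congr 1
    unfold ex
    rw [ha, hx₁]
    congr 1
    push_cast
    ring
  -- the open mapping theorem
  have han : AnalyticOnNhd ℂ Φ (ball (x₁ : ℂ) R) := hΦd.analyticOnNhd isOpen_ball
  rcases han.is_constant_or_isOpen (convex_ball _ _).isPreconnected with ⟨w, hw⟩ | hopen
  · apply hne
    rw [← hv0, ← hv1, hw _ hmem0, hw _ hmem1]
  · apply hint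
    have h3 := hopen (ball (x₁ : ℂ) R) Subset.rfl isOpen_ball
    refine mem_interior.2 ⟨_, ?_, h3, ?_⟩
    · rintro _ ⟨ζ, hζ, rfl⟩
      exact hJ ζ hζ
    · exact ⟨_, hmem0, hv0⟩

end Pool.Agent.Y812.LC
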